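import Pool.Agent.KS6_23.DN.Counter

/-!
# MP_a1f11a_an: the Day–Nordlander type bounds at the distances `1` and `√2`

`values X ε` is the set of the numbers `⟨p₁ - p₂, x₁ - x₂⟩` for unit vectors `x₁, x₂` with
`‖x₁ - x₂‖ = ε` and norming functionals `pᵢ ∈ J₁(xᵢ)`; `gammaPlus X ε = sSup (values X ε)`,
`gammaMinus X ε = sInf (values X ε)` (`Pool/Agent/KS6_23/DN/Moduli.lean`).

For every real normed space of dimension at least two (finite or infinite)
`γ⁻(ε) ≤ ε² ≤ γ⁺(ε)` holds for `ε = 0, 1, √2, 2`; but there are a plane and an `ε ∈ [0, 2]` with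
`γ⁺(ε) < ε²`.

* `ε = 1`: if `x₁, x₂` are unit vectors at distance `1` then so are `x₂, x₃` and `x₃, -x₁`, where
  `x₃ = x₂ - x₁`, and the three values have sum `3`.
* `ε = √2`: if `‖x - y‖ = ‖x + y‖ = g` for unit vectors `x, y`, the values of `(x, y)` and `(x, -y)`
  have sum `4`, and `(x + y)/g, (x - y)/g` is such a pair for `2/g`; the two moduli are monotone.
* The counterexample (a `132`-gon, `ε = 1.461`) is the known one.
-/

set_option autoImplicit false

universe u

namespace Pool.Agent.Results.MP_a1f11a_an.SpecialDistances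

open Pool.Agent.KS6_23.DN

theorem result :
    (∀ (X : Type u) [NormedAddCommGroup X] [NormedSpace ℝ X], 1 < Module.rank ℝ X →
      ∀ ε ∈ ({0, 1, √2, 2} : Set ℝ), gammaMinus X ε ≤ ε ^ 2 ∧ ε ^ 2 ≤ gammaPlus X ε) ∧
    ∃ (X : Type) (_ : NormedAddCommGroup X) (_ : NormedSpace ℝ X),
      Module.finrank ℝ X = 2 ∧ ∃ ε ∈ Set.Icc (0 : ℝ) 2, gammaPlus X ε < ε ^ 2 := by
  refine ⟨?_, counter⟩
  intro X _ _ hX ε hε
  simp only [Set.mem_insert_iff, Set.mem_singleton_iff] at hε
  rcases hε with rfl | rfl | rfl | rfl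
  · simpa using at_zero hX
  · simpa using at_one hX
  · rw [Real.sq_sqrt (by norm_num)]
    exact at_sqrt_two hX
  · have := at_two hX
    norm_num
    exact this

end Pool.Agent.Results.MP_a1f11a_an.SpecialDistances
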